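import Pool.Agent.X179.EP.Min

/-!
# Einstein position: existence and uniqueness
-/

set_option autoImplicit false

namespace Pool.Agent.X179.EP

open Finset Pool.Agent.W666.GB

variable {V : Type*} [NormedAddCommGroup V] [InnerProductSpace ℝ V]
variable {ι : Type*} [Fintype ι] [DecidableEq ι]
variable {Q : V → V → V → V → ℝ}

/-- `h` is an inner product -/
def IsMetric (h : LinearMap.BilinForm ℝ V) : Prop :=
  (∀ x y, h x y = h y x) ∧ ∀ x, x ≠ 0 → 0 < h x x

/-- `b` is orthonormal with respect to `h` -/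
def Ortho (h : LinearMap.BilinForm ℝ V) (b : ι → V) : Prop :=
  ∀ i j, h (b i) (b j) = if i = j then 1 else 0

theorem area_bound (h : AlgCurv Q) {ε : ℝ}
    (hq : ∀ x y : V, inner ℝ x y = (0 : ℝ) → ε * (‖x‖ ^ 2 * ‖y‖ ^ 2) ≤ Q x y x y) {x y : V}
    (hx : x ≠ 0) (t : ℝ) (ht : t = inner ℝ x y / ‖x‖ ^ 2) :
    ε * (‖x‖ ^ 2 * ‖y - t • x‖ ^ 2) ≤ Q x y x y := by
  have hx' : ‖x‖ ≠ 0 := norm_ne_zero_iff.2 hx
  have h1 : inner ℝ x (y - t • x) = (0 : ℝ) := by
    rw [inner_sub_right, inner_smul_right, real_inner_self_eq_norm_sq, ht]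
    field_simp
    ring
  have h2 := hq x (y - t • x) h1
  have h3 : Q x (y - t • x) x (y - t • x) = Q x y x y := by
    rw [h.sub2, h.sub4, h.smul2, h.sub4, h.smul4, h.self12, h.smul4, h.self34, h.self12]
    ring
  rwa [h3] at h2

theorem q_pos_of_indep (h : AlgCurv Q) {ε : ℝ} (hε : 0 < ε)
    (hq : ∀ x y : V, inner ℝ x y = (0 : ℝ) → ε * (‖x‖ ^ 2 * ‖y‖ ^ 2) ≤ Q x y x y) {x y : V}
    (hxy : ∀ a b : ℝ, a • x + b • y = 0 → a = 0 ∧ b = 0) : 0 < Q x y x y := by
  have hx : x ≠ 0 := by
    rintro rfl
    have := (hxy 1 0 (by simp)).1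
    norm_num at this
  have hx' : 0 < ‖x‖ := norm_pos_iff.2 hx
  refine lt_of_lt_of_le ?_ (area_bound h hq hx _ rfl)
  have h1 : y - (inner ℝ x y / ‖x‖ ^ 2) • x ≠ 0 := by
    intro h0
    have := (hxy (-(inner ℝ x y / ‖x‖ ^ 2)) 1 (by rw [← h0]; module)).2
    norm_num at this
  have h2 : 0 < ‖y - (inner ℝ x y / ‖x‖ ^ 2) • x‖ := norm_pos_iff.2 h1
  positivity

/-- the Einstein family -/
theorem exists_family (h : AlgCurv Q) (e : OrthonormalBasis ι ℝ V) (hn : 3 ≤ Fintype.card ι)
    (hpos : PosSec Q) : ∃ b : ι → V, e.toBasis.det b ≠ 0 ∧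
      (∀ p q, ∑ k, Q (b p) (b k) (b q) (b k) =
        if p = q then (Fintype.card ι : ℝ) - 1 else 0) ∧
      ((Fintype.card ι : ℝ) * (Fintype.card ι - 1)) ^ Fintype.card ι ≤
        tot Q e ^ Fintype.card ι * e.toBasis.det b ^ 4 := by
  obtain ⟨b, hb, hmin⟩ := exists_min h e hn hpos
  obtain ⟨ε, hε, hq⟩ := exists_eps h e (by omega) hpos
  have hbne : e.toBasis.det b ≠ 0 := by
    intro h0
    rw [h0] at hb
    norm_num at hb
  have hoff : ∀ p q, p ≠ q → ∑ k, Q (b p) (b k) (b q) (b k) = 0 := by
    intro p q hpq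
    refine crit_off h b hpq fun t => hmin _ ?_
    rw [AlternatingMap.map_update_add, AlternatingMap.map_update_smul,
      AlternatingMap.map_update_self _ _ hpq, Function.update_eq_self, smul_zero, add_zero, hb]
  have hdiag : ∀ p q, ∑ k, Q (b p) (b k) (b p) (b k) = ∑ k, Q (b q) (b k) (b q) (b k) := by
    intro p q
    rcases eq_or_ne p q with hpq | hpq
    · rw [hpq]
    refine crit_diag h b hpq fun s hs => hmin _ ?_
    rw [AlternatingMap.map_update_smul]
    have h1 : Function.update (Function.update b p (s • b p)) q (b q) =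
        Function.update b p (s • b p) := by
      rw [Function.update_eq_iff]
      exact ⟨(Function.update_of_ne hpq.symm _ _).symm, fun _ _ => rfl⟩
    rw [h1, AlternatingMap.map_update_smul, Function.update_eq_self, smul_smul,
      inv_mul_cancel₀ hs.ne', one_smul, hb]
  have hcard : 0 < Fintype.card ι := by omega
  obtain ⟨p0, p1, h01⟩ := Fintype.one_lt_card_iff.1 (by omega : 1 < Fintype.card ι)
  set ρ : ℝ := ∑ k, Q (b p0) (b k) (b p0) (b k) with hρ
  have htot : tot Q b = Fintype.card ι * ρ := by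
    unfold tot
    rw [Finset.sum_congr rfl fun p _ => hdiag p p0, Finset.sum_const, Finset.card_univ,
      nsmul_eq_mul]
  have hind : LinearIndependent ℝ b :=
    ((Module.Basis.is_basis_iff_det e.toBasis).2 (isUnit_iff_ne_zero.2 hbne)).1
  have hρ0 : 0 < ρ := by
    have hnn : ∀ k, 0 ≤ Q (b p0) (b k) (b p0) (b k) := by
      intro k
      rcases eq_or_ne (b p0) 0 with h0 | h0
      · exact absurd h0 (hind.ne_zero p0)
      · refine le_trans ?_ (area_bound h hq h0 _ rfl)
        positivity
    have hp : 0 < Q (b p0) (b p1) (b p0) (b p1) := by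
      refine q_pos_of_indep h hε hq fun s t hst => ?_
      exact (LinearIndepOn.pair_iff b h01).1 (hind.linearIndepOn _) s t hst
    refine lt_of_lt_of_le hp ?_
    exact Finset.single_le_sum (f := fun k => Q (b p0) (b k) (b p0) (b k)) (fun k _ => hnn k)
      (mem_univ p1)
  have hn1 : (0 : ℝ) < (Fintype.card ι : ℝ) - 1 := by
    have : (3 : ℝ) ≤ (Fintype.card ι : ℝ) := by exact_mod_cast hn
    linarith
  set r : ℝ := ((Fintype.card ι : ℝ) - 1) / ρ with hr
  have hr0 : 0 < r := div_pos hn1 hρ0
  set l : ℝ := Real.sqrt (Real.sqrt r) with hl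
  have hl0 : 0 < l := Real.sqrt_pos.2 (Real.sqrt_pos.2 hr0)
  have hl4 : l ^ 4 = r := by
    have h1 : l ^ 2 = Real.sqrt r := Real.sq_sqrt (Real.sqrt_nonneg _)
    calc l ^ 4 = (l ^ 2) ^ 2 := by ring
      _ = r := by rw [h1, Real.sq_sqrt hr0.le]
  have hdet : e.toBasis.det (fun i => l • b i) = l ^ Fintype.card ι * e.toBasis.det b := by
    rw [AlternatingMap.map_smul_univ, Finset.prod_const, Finset.card_univ, smul_eq_mul]
  refine ⟨fun i => l • b i, ?_, ?_, ?_⟩
  · rw [hdet]
    exact mul_ne_zero (by positivity) hbne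
  · intro p q
    have h1 : ∀ k, Q (l • b p) (l • b k) (l • b q) (l • b k) =
        l ^ 4 * Q (b p) (b k) (b q) (b k) := by
      intro k
      rw [h.smul, h.smul2, h.smul3, h.smul4]
      ring
    simp only [h1]
    rw [← Finset.mul_sum, hl4]
    split_ifs with hpq
    · subst hpq
      rw [hdiag p p0, ← hρ, hr]
      field_simp
    · rw [hoff p q hpq, mul_zero]
  · rw [hdet]
    have h1 : (l ^ Fintype.card ι * e.toBasis.det b) ^ 4 = r ^ Fintype.card ι := by
      calc (l ^ Fintype.card ι * e.toBasis.det b) ^ 4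
          = (l ^ 4) ^ Fintype.card ι * (e.toBasis.det b ^ 2) ^ 2 := by ring
        _ = r ^ Fintype.card ι := by rw [hb, hl4]; ring
    rw [h1]
    have h2 : tot Q b ≤ tot Q e := by
      refine hmin _ ?_
      have h1 : e.toBasis.det (⇑e) = 1 := by
        rw [← e.coe_toBasis]
        exact e.toBasis.det_self
      rw [h1, one_pow]
    have hc0 : (0 : ℝ) < Fintype.card ι := by exact_mod_cast hcard
    have h3 : (Fintype.card ι : ℝ) * (Fintype.card ι - 1) = tot Q b * r := by
      rw [htot, hr]
      field_simp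
    rw [h3, mul_pow]
    have h4 : 0 ≤ tot Q b := by rw [htot]; positivity
    exact mul_le_mul_of_nonneg_right (pow_le_pow_left₀ h4 h2 _) (by positivity)

/-- `h` is an inner product relative to which the Ricci tensor of `R` is `-(n - 1) h`, `n` the
dimension: `∑ i, R (b i) v (b i) w = -(n - 1) h v w` for all `h`-orthonormal bases `b`. -/
def EinsteinMetric (ι : Type) [Fintype ι] [DecidableEq ι] (R : V → V → V → V → ℝ)
    (h : LinearMap.BilinForm ℝ V) : Prop :=
  IsMetric h ∧ ∀ b : ι → V, Ortho h b → ∀ v w : V,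
    ∑ i, R (b i) v (b i) w = -((Fintype.card ι : ℝ) - 1) * h v w

/-- Gram matrix with respect to `h` -/
def gramH (h : LinearMap.BilinForm ℝ V) (b : ι → V) : Matrix ι ι ℝ := fun j k => h (b j) (b k)

omit [DecidableEq ι] in
theorem gramH_mix (h : LinearMap.BilinForm ℝ V) (b : ι → V) (U : Matrix ι ι ℝ) :
    gramH h (fun j => ∑ a, U a j • b a) = U.transpose * gramH h b * U := by
  ext j k
  have h1 : gramH h (fun j => ∑ a, U a j • b a) j k =
      ∑ a, ∑ c, U a j * U c k * gramH h b a c := by
    unfold gramH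
    simp only [map_sum, LinearMap.sum_apply, map_smul, LinearMap.smul_apply, smul_eq_mul]
    rw [Finset.sum_comm]
    refine Finset.sum_congr rfl fun a _ => ?_
    rw [Finset.mul_sum]
    exact Finset.sum_congr rfl fun c _ => by ring
  rw [h1, Matrix.mul_apply, Finset.sum_comm]
  refine Finset.sum_congr rfl fun c _ => ?_
  rw [Matrix.mul_apply, Finset.sum_mul]
  refine Finset.sum_congr rfl fun a _ => ?_
  rw [Matrix.transpose_apply]
  ring

omit [Fintype ι] [DecidableEq ι] in
theorem gramH_herm {h : LinearMap.BilinForm ℝ V} (hh : IsMetric h) (b : ι → V) :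
    (gramH h b).IsHermitian := by
  ext i j
  simp only [Matrix.conjTranspose_apply, star_trivial]
  exact hh.1 _ _

/-- two inner products have a common orthogonal frame -/
theorem exists_common (e : OrthonormalBasis ι ℝ V) {h h' : LinearMap.BilinForm ℝ V}
    (hh : IsMetric h) (hh' : IsMetric h') :
    ∃ (b : ι → V) (μ : ι → ℝ), Ortho h b ∧ (∀ i, 0 < μ i) ∧
      ∀ i j, h' (b i) (b j) = if i = j then μ i else 0 := by
  obtain ⟨U, ν, hU1, hU2, hU3⟩ := exists_diag (gramH h e) (gramH_herm hh e)
  let c : ι → V := fun j => ∑ a, U a j • e a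
  have hc : ∀ i j, h (c i) (c j) = if i = j then ν i else 0 := by
    intro i j
    have h1 : gramH h c = Matrix.diagonal ν := by rw [← hU3]; exact gramH_mix h e U
    have := congrFun (congrFun h1 i) j
    rw [Matrix.diagonal_apply] at this
    exact this
  have hc0 : ∀ i, c i ≠ 0 := by
    intro i h0
    have h1 : gram c = 1 := by
      have h2 : gram (⇑e) = (1 : Matrix ι ι ℝ) := by
        ext j k
        rw [Matrix.one_apply]
        exact orthonormal_iff_ite.1 e.orthonormal j k
      rw [gram_mix, h2, Matrix.mul_one, hU2]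
    have h3 := congrFun (congrFun h1 i) i
    rw [Matrix.one_apply_eq] at h3
    unfold gram at h3
    rw [h0, inner_zero_left] at h3
    norm_num at h3
  have hν : ∀ i, 0 < ν i := by
    intro i
    have := hh.2 _ (hc0 i)
    rwa [hc, if_pos rfl] at this
  let d : ι → V := fun i => (Real.sqrt (ν i))⁻¹ • c i
  have hd : Ortho h d := by
    intro i j
    simp only [d, map_smul, LinearMap.smul_apply, smul_eq_mul, hc]
    split_ifs with hij
    · subst hij
      have := Real.mul_self_sqrt (hν i).le
      have h2 : Real.sqrt (ν i) ≠ 0 := (Real.sqrt_pos.2 (hν i)).ne'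
      field_simp
      rw [sq, this]
    · simp
  have hd0 : ∀ i, d i ≠ 0 := fun i => smul_ne_zero (inv_ne_zero (Real.sqrt_pos.2 (hν i)).ne')
    (hc0 i)
  obtain ⟨W, μ, hW1, hW2, hW3⟩ := exists_diag (gramH h' d) (gramH_herm hh' d)
  let b : ι → V := fun j => ∑ a, W a j • d a
  have hb : Ortho h b := by
    have h1 : gramH h b = 1 := by
      have h2 : gramH h d = (1 : Matrix ι ι ℝ) := by
        ext j k
        rw [Matrix.one_apply]
        exact hd j k
      have h3 : gramH h b = W.transpose * gramH h d * W := gramH_mix h d W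
      rw [h3, h2, Matrix.mul_one, hW2]
    intro i j
    have := congrFun (congrFun h1 i) j
    rw [Matrix.one_apply] at this
    exact this
  have hb' : ∀ i j, h' (b i) (b j) = if i = j then μ i else 0 := by
    intro i j
    have h1 : gramH h' b = Matrix.diagonal μ := by rw [← hW3]; exact gramH_mix h' d W
    have := congrFun (congrFun h1 i) j
    rw [Matrix.diagonal_apply] at this
    exact this
  refine ⟨b, μ, hb, fun i => ?_, hb'⟩
  have hbi : b i ≠ 0 := by
    intro h0
    have := hb i i
    rw [h0, if_pos rfl] at this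
    simp at this
  have := hh'.2 _ hbi
  rwa [hb', if_pos rfl] at this

/-- the combinatorial core of the uniqueness -/
theorem all_one {K : ι → ι → ℝ} {x : ι → ℝ} (hn : 3 ≤ Fintype.card ι) (hx : ∀ i, 0 < x i)
    (hK : ∀ i j, i ≠ j → 0 < K i j) (hK0 : ∀ i, K i i = 0)
    (hs : ∀ j, ∑ i, (x i * x j - 1) * K i j = 0) (i : ι) : x i = 1 := by
  have hne : Nonempty ι := ⟨i⟩
  obtain ⟨p, hp⟩ := Finite.exists_max x
  obtain ⟨q, hq⟩ := Finite.exists_min x
  have key1 : x q * x p ≤ 1 := by
    by_contra hcon
    push Not at hcon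
    have h1 : ∀ i, 0 ≤ (x i * x p - 1) * K i p := by
      intro i
      rcases eq_or_ne i p with hi | hi
      · rw [hi, hK0, mul_zero]
      · refine mul_nonneg ?_ (hK i p hi).le
        have : x q * x p ≤ x i * x p := mul_le_mul_of_nonneg_right (hq i) (hx p).le
        linarith
    obtain ⟨j, hj⟩ : ∃ j, j ≠ p := by
      obtain ⟨a, c, hac⟩ := Fintype.one_lt_card_iff.1 (by omega : 1 < Fintype.card ι)
      by_cases ha : a = p
      · exact ⟨c, fun hc => hac (ha.trans hc.symm)⟩
      · exact ⟨a, ha⟩
    have h2 : (x j * x p - 1) * K j p = 0 :=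
      (Finset.sum_eq_zero_iff_of_nonneg fun i _ => h1 i).1 (hs p) j (mem_univ j)
    have h3 : x q * x p ≤ x j * x p := mul_le_mul_of_nonneg_right (hq j) (hx p).le
    have := mul_pos (by linarith : 0 < x j * x p - 1) (hK j p hj)
    linarith
  have key2 : 1 ≤ x p * x q := by
    by_contra hcon
    push Not at hcon
    have h1 : ∀ i, 0 ≤ -((x i * x q - 1) * K i q) := by
      intro i
      rcases eq_or_ne i q with hi | hi
      · rw [hi, hK0]; simp
      · have : x i * x q ≤ x p * x q := mul_le_mul_of_nonneg_right (hp i) (hx q).le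
        have h2 : (x i * x q - 1) * K i q ≤ 0 :=
          mul_nonpos_of_nonpos_of_nonneg (by linarith) (hK i q hi).le
        linarith
    obtain ⟨j, hj⟩ : ∃ j, j ≠ q := by
      obtain ⟨a, c, hac⟩ := Fintype.one_lt_card_iff.1 (by omega : 1 < Fintype.card ι)
      by_cases ha : a = q
      · exact ⟨c, fun hc => hac (ha.trans hc.symm)⟩
      · exact ⟨a, ha⟩
    have h0 : ∑ i, -((x i * x q - 1) * K i q) = 0 := by
      rw [Finset.sum_neg_distrib, hs q, neg_zero]
    have h2 : -((x j * x q - 1) * K j q) = 0 :=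
      (Finset.sum_eq_zero_iff_of_nonneg fun i _ => h1 i).1 h0 j (mem_univ j)
    have h3 : x j * x q ≤ x p * x q := mul_le_mul_of_nonneg_right (hp j) (hx q).le
    have := mul_pos (by linarith : 0 < 1 - x j * x q) (hK j q hj)
    linarith
  have hpq : x p * x q = 1 := le_antisymm (by linarith [mul_comm (x p) (x q)]) key2
  have hall1 : ∀ i, i ≠ p → x i * x p = 1 := by
    have h1 : ∀ i, 0 ≤ (x i * x p - 1) * K i p := by
      intro i
      rcases eq_or_ne i p with hi | hi
      · rw [hi, hK0, mul_zero]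
      · refine mul_nonneg ?_ (hK i p hi).le
        have : x q * x p ≤ x i * x p := mul_le_mul_of_nonneg_right (hq i) (hx p).le
        linarith [mul_comm (x p) (x q)]
    intro i hi
    have h2 : (x i * x p - 1) * K i p = 0 :=
      (Finset.sum_eq_zero_iff_of_nonneg fun i _ => h1 i).1 (hs p) i (mem_univ i)
    rcases mul_eq_zero.1 h2 with h3 | h3
    · linarith
    · exact absurd h3 (hK i p hi).ne'
  have hall2 : ∀ i, i ≠ q → x i * x q = 1 := by
    have h1 : ∀ i, 0 ≤ -((x i * x q - 1) * K i q) := by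
      intro i
      rcases eq_or_ne i q with hi | hi
      · rw [hi, hK0]; simp
      · have : x i * x q ≤ x p * x q := mul_le_mul_of_nonneg_right (hp i) (hx q).le
        have h2 : (x i * x q - 1) * K i q ≤ 0 :=
          mul_nonpos_of_nonpos_of_nonneg (by linarith) (hK i q hi).le
        linarith
    intro i hi
    have h0 : ∑ i, -((x i * x q - 1) * K i q) = 0 := by
      rw [Finset.sum_neg_distrib, hs q, neg_zero]
    have h2 : -((x i * x q - 1) * K i q) = 0 :=
      (Finset.sum_eq_zero_iff_of_nonneg fun i _ => h1 i).1 h0 i (mem_univ i)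
    rcases mul_eq_zero.1 (neg_eq_zero.1 h2) with h3 | h3
    · linarith
    · exact absurd h3 (hK i q hi).ne'
  obtain ⟨k, hk⟩ : ∃ k, k ∉ ({p, q} : Finset ι) := by
    by_contra hcon
    push Not at hcon
    have h1 : (univ : Finset ι) ⊆ {p, q} := fun i _ => hcon i
    have h2 := Finset.card_le_card h1
    rw [Finset.card_univ] at h2
    have h3 : ({p, q} : Finset ι).card ≤ 2 := Finset.card_le_two
    omega
  simp only [Finset.mem_insert, Finset.mem_singleton, not_or] at hk
  have h1 := hall1 k hk.1
  have h2 := hall2 k hk.2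
  have h3 : x p = x q := by
    have : x k * x p = x k * x q := by rw [h1, h2]
    exact mul_left_cancel₀ (hx k).ne' this
  have h4 : x p = 1 := by
    rw [← h3] at hpq
    nlinarith [hx p]
  have h5 := hp i
  have h6 := hq i
  rw [h4] at h5
  rw [← h3, h4] at h6
  exact le_antisymm h5 h6

/-- uniqueness of the Einstein metric -/
theorem unique_metric {R : V → V → V → V → ℝ} {κ : Type} [Fintype κ] [DecidableEq κ]
    (hR : AlgCurv fun x y z w => -R x y z w)
    (e : OrthonormalBasis κ ℝ V) (hn : 3 ≤ Fintype.card κ)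
    (hpos : PosSec fun x y z w => -R x y z w) {h h' : LinearMap.BilinForm ℝ V}
    (hh : EinsteinMetric κ R h) (hh' : EinsteinMetric κ R h') : h = h' := by
  obtain ⟨ε, hε, hq⟩ := exists_eps hR e (by omega) hpos
  obtain ⟨b, μ, hb, hμ, hb'⟩ := exists_common e hh.1 hh'.1
  have hn1 : (0 : ℝ) < (Fintype.card κ : ℝ) - 1 := by
    have : (3 : ℝ) ≤ (Fintype.card κ : ℝ) := by exact_mod_cast hn
    linarith
  let s : κ → ℝ := fun i => (Real.sqrt (μ i))⁻¹
  have hs : ∀ i, s i * s i * μ i = 1 := by
    intro i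
    have h1 := Real.mul_self_sqrt (hμ i).le
    have h2 : Real.sqrt (μ i) ≠ 0 := (Real.sqrt_pos.2 (hμ i)).ne'
    simp only [s]
    field_simp
    rw [sq, h1]
  have hs0 : ∀ i, 0 < s i := fun i => inv_pos.2 (Real.sqrt_pos.2 (hμ i))
  have hd : Ortho h' fun i => s i • b i := by
    intro i j
    simp only [map_smul, LinearMap.smul_apply, smul_eq_mul, hb']
    split_ifs with hij
    · subst hij
      rw [← hs i]; ring
    · simp
  have e1 : ∀ j, ∑ i, R (b i) (b j) (b i) (b j) = -((Fintype.card κ : ℝ) - 1) := by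
    intro j
    rw [hh.2 b hb, hb, if_pos rfl, mul_one]
  have e2 : ∀ j, ∑ i, (s i * s i * (s j * s j)) * R (b i) (b j) (b i) (b j) =
      -((Fintype.card κ : ℝ) - 1) := by
    intro j
    have h1 := hh'.2 _ hd (s j • b j) (s j • b j)
    have h2 : h' (s j • b j) (s j • b j) = 1 := by
      have := hd j j
      rwa [if_pos rfl] at this
    rw [h2, mul_one] at h1
    rw [← h1]
    refine Finset.sum_congr rfl fun i _ => ?_
    have a1 := hR.smul (s i) (b i) (s j • b j) (s i • b i) (s j • b j)
    have a2 := hR.smul2 (s j) (b i) (b j) (s i • b i) (s j • b j)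
    have a3 := hR.smul3 (s i) (b i) (b j) (b i) (s j • b j)
    have a4 := hR.smul4 (s j) (b i) (b j) (b i) (b j)
    linear_combination a1 + s i * a2 + s i * s j * a3 + s i * s j * s i * a4
  have hind : ∀ i j, i ≠ j → ∀ a c : ℝ, a • b i + c • b j = 0 → a = 0 ∧ c = 0 := by
    intro i j hij a c hac
    have h1 : h (b i) (a • b i + c • b j) = a := by
      simp only [map_add, map_smul, smul_eq_mul, hb i i, hb i j, if_neg hij, if_true]
      ring
    have h2 : h (b j) (a • b i + c • b j) = c := by
      simp only [map_add, map_smul, smul_eq_mul, hb j j, hb j i, if_neg hij.symm, if_true]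
      ring
    rw [hac, map_zero] at h1 h2
    exact ⟨h1.symm, h2.symm⟩
  have hone := all_one (K := fun i j => -R (b i) (b j) (b i) (b j)) (x := fun i => s i * s i) hn
    (fun i => mul_pos (hs0 i) (hs0 i))
    (fun i j hij => q_pos_of_indep hR hε hq (hind i j hij))
    (fun i => hR.self12 _ _ _)
    (fun j => by
      have : ∀ i, (s i * s i * (s j * s j) - 1) * -R (b i) (b j) (b i) (b j) =
          R (b i) (b j) (b i) (b j) -
            (s i * s i * (s j * s j)) * R (b i) (b j) (b i) (b j) := fun i => by ring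
      simp only [this]
      rw [Finset.sum_sub_distrib, e1, e2, sub_self])
  have hμ1 : ∀ i, μ i = 1 := by
    intro i
    have h1 := hs i
    have h2 : s i * s i = 1 := hone i
    rwa [h2, one_mul] at h1
  have hb'' : Ortho h' b := by
    intro i j
    rw [hb', hμ1]
  ext v w
  have h1 := hh.2 b hb v w
  have h2 := hh'.2 b hb'' v w
  rw [h1] at h2
  have h3 : ((Fintype.card κ : ℝ) - 1) * h v w = ((Fintype.card κ : ℝ) - 1) * h' v w := by
    linarith
  exact mul_left_cancel₀ hn1.ne' h3

/-- existence of the Einstein metric, with the volume inequality -/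
theorem exists_metric {R : V → V → V → V → ℝ} {κ : Type} [Fintype κ] [DecidableEq κ]
    (hR : AlgCurv fun x y z w => -R x y z w)
    (e : OrthonormalBasis κ ℝ V) (hn : 3 ≤ Fintype.card κ)
    (hpos : PosSec fun x y z w => -R x y z w) :
    ∃ h : LinearMap.BilinForm ℝ V, EinsteinMetric κ R h ∧
      (Matrix.det fun i j => h (e i) (e j)) ^ 2 *
        ((Fintype.card κ : ℝ) * (Fintype.card κ - 1)) ^ Fintype.card κ ≤
        (-∑ i, ∑ j, R (e i) (e j) (e i) (e j)) ^ Fintype.card κ := by
  obtain ⟨b, hdet, hE, hvol⟩ := exists_family hR e hn hpos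
  have hn1 : (0 : ℝ) < (Fintype.card κ : ℝ) - 1 := by
    have : (3 : ℝ) ≤ (Fintype.card κ : ℝ) := by exact_mod_cast hn
    linarith
  have hbas := (Module.Basis.is_basis_iff_det e.toBasis).2 (isUnit_iff_ne_zero.2 hdet)
  let B : Module.Basis κ ℝ V := Module.Basis.mk hbas.1 hbas.2.ge
  have hB : ∀ i, B i = b i := fun i => by simp [B]
  let h : LinearMap.BilinForm ℝ V := ∑ i, LinearMap.BilinForm.linMulLin (B.coord i) (B.coord i)
  have hh : ∀ v w, h v w = ∑ i, B.repr v i * B.repr w i := by
    intro v w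
    simp [h, LinearMap.BilinForm.linMulLin]
  have hrepr : ∀ v : V, v = ∑ i, B.repr v i • b i := by
    intro v
    conv_lhs => rw [← B.sum_repr v]
    exact Finset.sum_congr rfl fun i _ => by rw [hB]
  have hmet : IsMetric h := by
    refine ⟨fun x y => ?_, fun x hx => ?_⟩
    · rw [hh, hh]
      exact Finset.sum_congr rfl fun i _ => mul_comm _ _
    · rw [hh]
      obtain ⟨i, hi⟩ : ∃ i, B.repr x i ≠ 0 := by
        by_contra hcon
        push Not at hcon
        refine hx ?_
        rw [hrepr x]
        exact Finset.sum_eq_zero fun i _ => by rw [hcon i, zero_smul]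
      refine lt_of_lt_of_le (mul_self_pos.2 hi) ?_
      exact Finset.single_le_sum (f := fun i => B.repr x i * B.repr x i)
        (fun i _ => mul_self_nonneg _) (mem_univ i)
  have hob : Ortho h b := by
    intro i j
    rw [hh, ← hB i, ← hB j]
    simp only [Module.Basis.repr_self, Finsupp.single_apply]
    simp
  have hEin : ∀ v w : V, ∑ i, R (b i) v (b i) w = -((Fintype.card κ : ℝ) - 1) * h v w := by
    intro v w
    have h1 : ∀ i, -R (b i) v (b i) w =
        ∑ p, ∑ q, B.repr v p * (B.repr w q * -R (b i) (b p) (b i) (b q)) := by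
      intro i
      conv_lhs => rw [hrepr v, hrepr w]
      have a1 := sum2 hR (fun p => B.repr v p) b (b i) (b i) (∑ i, B.repr w i • b i)
      rw [a1]
      refine Finset.sum_congr rfl fun p _ => ?_
      have a2 := sum4 hR (fun q => B.repr w q) b (b i) (b p) (b i)
      rw [a2, Finset.mul_sum]
    have h2 : ∑ i, -R (b i) v (b i) w = ((Fintype.card κ : ℝ) - 1) * h v w := by
      simp only [h1]
      rw [Finset.sum_comm, hh, Finset.mul_sum]
      refine Finset.sum_congr rfl fun p _ => ?_
      rw [Finset.sum_comm]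
      have h3 : ∀ q, ∑ i, B.repr v p * (B.repr w q * -R (b i) (b p) (b i) (b q)) =
          B.repr v p * (B.repr w q * if p = q then (Fintype.card κ : ℝ) - 1 else 0) := by
        intro q
        rw [← Finset.mul_sum, ← Finset.mul_sum, ← hE p q]
        congr 2
        refine Finset.sum_congr rfl fun k _ => ?_
        have a1 := hR.anti (b p) (b k) (b k) (b q)
        have a2 := hR.a34 (b p) (b k) (b k) (b q)
        rw [a1, a2]
        ring
      simp only [h3]
      simp
      ring
    rw [Finset.sum_neg_distrib] at h2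
    linarith
  refine ⟨h, ⟨hmet, ?_⟩, ?_⟩
  · intro c hc v w
    rw [← hEin v w]
    let U : Matrix κ κ ℝ := fun a j => B.repr (c j) a
    have hcU : ∀ j, c j = ∑ a, U a j • b a := fun j => hrepr (c j)
    have hU : U.transpose * U = 1 := by
      ext i j
      rw [Matrix.mul_apply, Matrix.one_apply]
      have := hc i j
      rw [hh] at this
      rw [← this]
      rfl
    have hU' : U * U.transpose = 1 := mul_eq_one_comm.1 hU
    have h1 := inv_sum hR b hU' v w
    simp only [← hcU, Finset.sum_neg_distrib] at h1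
    linarith
  · have h1 : gramH h b = (e.toBasis.toMatrix b).transpose * gramH h e * e.toBasis.toMatrix b := by
      rw [← gramH_mix]
      congr 1
      funext j
      have := e.toBasis.sum_toMatrix_smul_self b j
      rw [← this]
      simp
    have h2 : gramH h b = (1 : Matrix κ κ ℝ) := by
      ext j k
      rw [Matrix.one_apply]
      exact hob j k
    have h3 : e.toBasis.det b ^ 2 * (Matrix.det fun i j => h (e i) (e j)) = 1 := by
      have h4 := congrArg Matrix.det h1
      rw [h2, Matrix.det_one, Matrix.det_mul, Matrix.det_mul, Matrix.det_transpose] at h4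
      rw [Module.Basis.det_apply]
      unfold gramH at h4
      rw [h4]
      ring
    have h5 : e.toBasis.det b ^ 4 * (Matrix.det fun i j => h (e i) (e j)) ^ 2 = 1 := by
      calc e.toBasis.det b ^ 4 * (Matrix.det fun i j => h (e i) (e j)) ^ 2
          = (e.toBasis.det b ^ 2 * (Matrix.det fun i j => h (e i) (e j))) ^ 2 := by ring
        _ = 1 := by rw [h3, one_pow]
    have h6 : tot (fun x y z w => -R x y z w) e = -∑ i, ∑ j, R (e i) (e j) (e i) (e j) := by
      unfold tot
      simp only [Finset.sum_neg_distrib]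
    rw [← h6]
    calc (Matrix.det fun i j => h (e i) (e j)) ^ 2 *
          ((Fintype.card κ : ℝ) * (Fintype.card κ - 1)) ^ Fintype.card κ
        ≤ (Matrix.det fun i j => h (e i) (e j)) ^ 2 *
          (tot (fun x y z w => -R x y z w) e ^ Fintype.card κ * e.toBasis.det b ^ 4) :=
          mul_le_mul_of_nonneg_left hvol (sq_nonneg _)
      _ = tot (fun x y z w => -R x y z w) e ^ Fintype.card κ *
          (e.toBasis.det b ^ 4 * (Matrix.det fun i j => h (e i) (e j)) ^ 2) := by ring
      _ = _ := by rw [h5, mul_one]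

end Pool.Agent.X179.EP
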