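import Pool.Agent.X179.EP.Pos

/-!
# Einstein position: existence of the minimiser
-/

set_option autoImplicit false

namespace Pool.Agent.X179.EP

open Finset Pool.Agent.W666.GB

variable {V : Type*} [NormedAddCommGroup V] [InnerProductSpace ℝ V]
variable {ι : Type*} [Fintype ι] [DecidableEq ι]
variable {Q : V → V → V → V → ℝ}

/-- positive sectional curvature -/
def PosSec (Q : V → V → V → V → ℝ) : Prop :=
  ∀ x y : V, ‖x‖ = 1 → ‖y‖ = 1 → inner ℝ x y = (0 : ℝ) → 0 < Q x y x y

omit [DecidableEq ι] in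
theorem Q_expand (h : AlgCurv Q) (e : OrthonormalBasis ι ℝ V) (x y z w : V) :
    Q x y z w = ∑ a, ∑ b, ∑ c, ∑ d, inner ℝ (e a) x * (inner ℝ (e b) y * (inner ℝ (e c) z *
      (inner ℝ (e d) w * Q (e a) (e b) (e c) (e d)))) := by
  conv_lhs => rw [← e.sum_repr' x, ← e.sum_repr' y, ← e.sum_repr' z, ← e.sum_repr' w]
  rw [sum1 h]
  refine Finset.sum_congr rfl fun a _ => ?_
  rw [sum2 h, Finset.mul_sum]
  refine Finset.sum_congr rfl fun b _ => ?_
  rw [sum3 h, Finset.mul_sum, Finset.mul_sum]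
  refine Finset.sum_congr rfl fun c _ => ?_
  rw [sum4 h, Finset.mul_sum, Finset.mul_sum, Finset.mul_sum]

theorem Q_cont (h : AlgCurv Q) (e : OrthonormalBasis ι ℝ V) {X : Type*} [TopologicalSpace X]
    {x y z w : X → V} (hx : Continuous x) (hy : Continuous y) (hz : Continuous z)
    (hw : Continuous w) : Continuous fun t => Q (x t) (y t) (z t) (w t) := by
  simp only [Q_expand h e (x _) (y _) (z _) (w _)]
  fun_prop

/-- uniform positivity -/
theorem exists_eps (h : AlgCurv Q) (e : OrthonormalBasis ι ℝ V) (hn : 2 ≤ Fintype.card ι)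
    (hpos : PosSec Q) :
    ∃ ε : ℝ, 0 < ε ∧ ∀ x y : V, inner ℝ x y = (0 : ℝ) → ε * (‖x‖ ^ 2 * ‖y‖ ^ 2) ≤ Q x y x y := by
  have hfin : FiniteDimensional ℝ V := e.toBasis.finiteDimensional_of_finite
  have hproper : ProperSpace V := FiniteDimensional.proper ℝ V
  let K : Set (V × V) := {p | ‖p.1‖ = 1 ∧ ‖p.2‖ = 1 ∧ inner ℝ p.1 p.2 = (0 : ℝ)}
  have hK : IsCompact K := by
    refine Metric.isCompact_of_isClosed_isBounded ?_ ?_
    · refine (isClosed_eq (by fun_prop) continuous_const).inter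
        ((isClosed_eq (by fun_prop) continuous_const).inter
          (isClosed_eq (by fun_prop) continuous_const))
    · refine (Metric.isBounded_iff_subset_closedBall 0).2 ⟨1, ?_⟩
      rintro ⟨x, y⟩ ⟨h1, h2, -⟩
      rw [mem_closedBall_zero_iff, Prod.norm_def]
      simp only at h1 h2
      simp [h1, h2]
  obtain ⟨i, j, hij⟩ := Fintype.one_lt_card_iff.1 (by omega : 1 < Fintype.card ι)
  have hne : K.Nonempty := ⟨(e i, e j), by simp, by simp, e.orthonormal.2 hij⟩
  have hc : Continuous fun p : V × V => Q p.1 p.2 p.1 p.2 :=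
    Q_cont h e continuous_fst continuous_snd continuous_fst continuous_snd
  obtain ⟨p, hp, hmin⟩ := hK.exists_isMinOn hne hc.continuousOn
  refine ⟨Q p.1 p.2 p.1 p.2, hpos _ _ hp.1 hp.2.1 hp.2.2, ?_⟩
  intro x y hxy
  rcases eq_or_ne x 0 with hx | hx
  · subst hx
    have : Q 0 y 0 y = 0 := by
      have := h.smul 0 0 y 0 y
      rw [zero_smul, zero_mul] at this
      exact this
    rw [this]
    simp
  rcases eq_or_ne y 0 with hy | hy
  · subst hy
    have : Q x 0 x 0 = 0 := by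
      have := h.smul2 0 x 0 x 0
      rw [zero_smul, zero_mul] at this
      exact this
    rw [this]
    simp
  have hx' : ‖x‖ ≠ 0 := norm_ne_zero_iff.2 hx
  have hy' : ‖y‖ ≠ 0 := norm_ne_zero_iff.2 hy
  have hmem : ((‖x‖⁻¹ • x, ‖y‖⁻¹ • y) : V × V) ∈ K := by
    refine ⟨?_, ?_, ?_⟩
    · simp [norm_smul, hx']
    · simp [norm_smul, hy']
    · simp [inner_smul_left, inner_smul_right, hxy]
  have h1 := isMinOn_iff.1 hmin _ hmem
  simp only [h.smul, h.smul2, h.smul3, h.smul4] at h1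
  have h2 : 0 < ‖x‖ ^ 2 * ‖y‖ ^ 2 := by positivity
  calc Q p.1 p.2 p.1 p.2 * (‖x‖ ^ 2 * ‖y‖ ^ 2)
      ≤ (‖x‖⁻¹ * (‖y‖⁻¹ * (‖x‖⁻¹ * (‖y‖⁻¹ * Q x y x y)))) * (‖x‖ ^ 2 * ‖y‖ ^ 2) :=
        mul_le_mul_of_nonneg_right h1 h2.le
    _ = Q x y x y := by field_simp

/-- a real symmetric matrix is diagonalised by an orthogonal matrix -/
theorem exists_diag (G : Matrix ι ι ℝ) (hG : G.IsHermitian) :
    ∃ (U : Matrix ι ι ℝ) (μ : ι → ℝ), U * U.transpose = 1 ∧ U.transpose * U = 1 ∧
      U.transpose * G * U = Matrix.diagonal μ := by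
  refine ⟨(Matrix.IsHermitian.eigenvectorUnitary hG : Matrix ι ι ℝ),
    Matrix.IsHermitian.eigenvalues hG, ?_, ?_, ?_⟩
  · have := (Matrix.mem_unitaryGroup_iff).1 (Matrix.IsHermitian.eigenvectorUnitary hG).2
    simpa [Matrix.star_eq_conjTranspose] using this
  · have := (Matrix.mem_unitaryGroup_iff').1 (Matrix.IsHermitian.eigenvectorUnitary hG).2
    simpa [Matrix.star_eq_conjTranspose] using this
  · have := Matrix.IsHermitian.conjStarAlgAut_star_eigenvectorUnitary hG
    rw [Unitary.conjStarAlgAut_star_apply] at this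
    simpa [Matrix.star_eq_conjTranspose, Function.comp_def] using this

/-- Gram matrix -/
def gram (b : ι → V) : Matrix ι ι ℝ := fun j k => inner ℝ (b j) (b k)

omit [DecidableEq ι] in
theorem gram_eq (e : OrthonormalBasis ι ℝ V) (b : ι → V) :
    gram b = (e.toBasis.toMatrix b).transpose * e.toBasis.toMatrix b := by
  ext j k
  rw [Matrix.mul_apply]
  unfold gram
  rw [← e.sum_inner_mul_inner (b j) (b k)]
  refine Finset.sum_congr rfl fun i _ => ?_
  rw [Matrix.transpose_apply, Module.Basis.toMatrix_apply, Module.Basis.toMatrix_apply,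
    e.coe_toBasis_repr_apply, e.coe_toBasis_repr_apply, e.repr_apply_apply, e.repr_apply_apply,
    real_inner_comm]

theorem det_gram (e : OrthonormalBasis ι ℝ V) (b : ι → V) :
    (gram b).det = e.toBasis.det b ^ 2 := by
  rw [gram_eq e, Matrix.det_mul, Matrix.det_transpose, Module.Basis.det_apply, sq]

omit [Fintype ι] [DecidableEq ι] in
theorem gram_herm (b : ι → V) : (gram b).IsHermitian := by
  ext i j
  simp only [Matrix.conjTranspose_apply, star_trivial]
  exact real_inner_comm _ _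

theorem gram_mix (b : ι → V) (U : Matrix ι ι ℝ) :
    gram (fun j => ∑ a, U a j • b a) = U.transpose * gram b * U := by
  ext j k
  have h1 : gram (fun j => ∑ a, U a j • b a) j k =
      ∑ a, ∑ c, U a j * U c k * gram b a c := by
    unfold gram
    rw [sum_inner]
    refine Finset.sum_congr rfl fun a _ => ?_
    rw [inner_sum]
    refine Finset.sum_congr rfl fun c _ => ?_
    rw [inner_smul_left, inner_smul_right, conj_trivial]
    ring
  rw [h1, Matrix.mul_apply, Finset.sum_comm]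
  refine Finset.sum_congr rfl fun c _ => ?_
  rw [Matrix.mul_apply, Finset.sum_mul]
  refine Finset.sum_congr rfl fun a _ => ?_
  rw [Matrix.transpose_apply]
  ring

theorem mu_bound {μ : ι → ℝ} {c : ℝ} (hn : 3 ≤ Fintype.card ι) (hμ : ∀ i, 0 ≤ μ i)
    (hp : ∏ i, μ i = 1) (hc : ∀ i j, i ≠ j → μ i * μ j ≤ c) (k : ι) :
    μ k ≤ max 1 (c ^ (Fintype.card ι - 1)) := by
  by_cases h1 : μ k ≤ 1
  · exact h1.trans (le_max_left _ _)
  push Not at h1
  refine le_trans ?_ (le_max_right _ _)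
  have h2 : ∏ i ∈ univ.erase k, (μ i * μ k) ≤ c ^ (Fintype.card ι - 1) := by
    have h3 : ∏ i ∈ univ.erase k, (μ i * μ k) ≤ ∏ _i ∈ univ.erase k, c :=
      Finset.prod_le_prod (fun i _ => mul_nonneg (hμ i) (hμ k))
        (fun i hi => hc i k (Finset.ne_of_mem_erase hi))
    rw [Finset.prod_const, Finset.card_erase_of_mem (mem_univ k), Finset.card_univ] at h3
    exact h3
  rw [Finset.prod_mul_distrib, Finset.prod_const, Finset.card_erase_of_mem (mem_univ k),
    Finset.card_univ] at h2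
  have h4 : μ k * ∏ i ∈ univ.erase k, μ i = 1 := by
    rw [Finset.mul_prod_erase univ μ (mem_univ k), hp]
  have h5 : (∏ i ∈ univ.erase k, μ i) * μ k ^ (Fintype.card ι - 1) =
      μ k ^ (Fintype.card ι - 2) := by
    have : Fintype.card ι - 1 = (Fintype.card ι - 2) + 1 := by omega
    rw [this, pow_succ]
    calc (∏ i ∈ univ.erase k, μ i) * (μ k ^ (Fintype.card ι - 2) * μ k)
        = (μ k * ∏ i ∈ univ.erase k, μ i) * μ k ^ (Fintype.card ι - 2) := by ring
      _ = _ := by rw [h4, one_mul]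
  rw [h5] at h2
  refine le_trans ?_ h2
  calc μ k = μ k ^ 1 := (pow_one _).symm
    _ ≤ μ k ^ (Fintype.card ι - 2) := pow_le_pow_right₀ h1.le (by omega)

theorem norm_bound (h : AlgCurv Q) (e : OrthonormalBasis ι ℝ V) (hn : 3 ≤ Fintype.card ι)
    {ε : ℝ} (hε : 0 < ε)
    (hq : ∀ x y : V, inner ℝ x y = (0 : ℝ) → ε * (‖x‖ ^ 2 * ‖y‖ ^ 2) ≤ Q x y x y)
    {c : ℝ} (b : ι → V) (hdet : e.toBasis.det b ^ 2 = 1) (hc : tot Q b ≤ c) (j : ι) :
    ‖b j‖ ^ 2 ≤ Fintype.card ι * max 1 ((c / ε) ^ (Fintype.card ι - 1)) := by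
  obtain ⟨U, μ, hU1, hU2, hU3⟩ := exists_diag (gram b) (gram_herm b)
  let b' : ι → V := fun j => ∑ a, U a j • b a
  have hg : gram b' = Matrix.diagonal μ := by rw [← hU3]; exact gram_mix b U
  have hin : ∀ j k, inner ℝ (b' j) (b' k) = if j = k then μ j else 0 := by
    intro j k
    have := congrFun (congrFun hg j) k
    rw [Matrix.diagonal_apply] at this
    exact this
  have hnorm : ∀ j, ‖b' j‖ ^ 2 = μ j := by
    intro j
    rw [← real_inner_self_eq_norm_sq, hin, if_pos rfl]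
  have hμ : ∀ j, 0 ≤ μ j := fun j => by rw [← hnorm]; positivity
  have hprod : ∏ i, μ i = 1 := by
    rw [← Matrix.det_diagonal, ← hg, gram_mix, Matrix.det_mul, Matrix.det_mul, det_gram e, hdet,
      mul_one, ← Matrix.det_mul, hU2, Matrix.det_one]
  have htot : tot Q b' ≤ c := by
    rw [tot_inv h b hU1]
    exact hc
  have hnn : ∀ j k, 0 ≤ Q (b' j) (b' k) (b' j) (b' k) := by
    intro j k
    rcases eq_or_ne j k with hjk | hjk
    · subst hjk
      rw [h.self12]
    · refine le_trans ?_ (hq _ _ (by rw [hin, if_neg hjk]))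
      positivity
  have hpair : ∀ j k, j ≠ k → μ j * μ k ≤ c / ε := by
    intro j k hjk
    rw [le_div_iff₀ hε]
    have h1 : ε * (‖b' j‖ ^ 2 * ‖b' k‖ ^ 2) ≤ Q (b' j) (b' k) (b' j) (b' k) :=
      hq _ _ (by rw [hin, if_neg hjk])
    have h2 : Q (b' j) (b' k) (b' j) (b' k) ≤ tot Q b' := by
      unfold tot
      have h3 : Q (b' j) (b' k) (b' j) (b' k) ≤ ∑ k, Q (b' j) (b' k) (b' j) (b' k) :=
        Finset.single_le_sum (f := fun k => Q (b' j) (b' k) (b' j) (b' k))
          (fun k _ => hnn j k) (mem_univ k)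
      have h4 : ∑ k, Q (b' j) (b' k) (b' j) (b' k) ≤
          ∑ j, ∑ k, Q (b' j) (b' k) (b' j) (b' k) :=
        Finset.single_le_sum (f := fun j => ∑ k, Q (b' j) (b' k) (b' j) (b' k))
          (fun j _ => Finset.sum_nonneg fun k _ => hnn j k) (mem_univ j)
      exact h3.trans h4
    rw [hnorm, hnorm] at h1
    linarith
  have hbd := mu_bound hn hμ hprod hpair
  have htr : ∑ j, ‖b j‖ ^ 2 = ∑ k, μ k := by
    have h1 : (gram b).trace = (Matrix.diagonal μ).trace := by
      rw [← hU3, Matrix.trace_mul_comm, ← Matrix.mul_assoc, hU1, Matrix.one_mul]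
    rw [Matrix.trace_diagonal] at h1
    rw [← h1]
    unfold Matrix.trace gram
    exact Finset.sum_congr rfl fun i _ => (real_inner_self_eq_norm_sq _).symm
  calc ‖b j‖ ^ 2 ≤ ∑ j, ‖b j‖ ^ 2 :=
        Finset.single_le_sum (f := fun j => ‖b j‖ ^ 2) (fun j _ => sq_nonneg _) (mem_univ j)
    _ = ∑ k, μ k := htr
    _ ≤ ∑ _k : ι, max 1 ((c / ε) ^ (Fintype.card ι - 1)) := Finset.sum_le_sum fun k _ => hbd k
    _ = _ := by rw [Finset.sum_const, Finset.card_univ, nsmul_eq_mul]

theorem exists_min (h : AlgCurv Q) (e : OrthonormalBasis ι ℝ V) (hn : 3 ≤ Fintype.card ι)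
    (hpos : PosSec Q) : ∃ b : ι → V, e.toBasis.det b ^ 2 = 1 ∧
      ∀ b' : ι → V, e.toBasis.det b' ^ 2 = 1 → tot Q b ≤ tot Q b' := by
  have hfin : FiniteDimensional ℝ V := e.toBasis.finiteDimensional_of_finite
  have hproper : ProperSpace V := FiniteDimensional.proper ℝ V
  obtain ⟨ε, hε, hq⟩ := exists_eps h e (by omega) hpos
  let K : Set (ι → V) := {b | e.toBasis.det b ^ 2 = 1 ∧ tot Q b ≤ tot Q e}
  have hc1 : Continuous fun b : ι → V => tot Q b := by
    unfold tot
    refine continuous_finsetSum _ fun j _ => continuous_finsetSum _ fun k _ => ?_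
    exact Q_cont h e (continuous_apply j) (continuous_apply k) (continuous_apply j)
      (continuous_apply k)
  have hc2 : Continuous fun b : ι → V => e.toBasis.det b ^ 2 := by
    have h1 : ∀ b : ι → V, e.toBasis.det b ^ 2 = (gram b).det := fun b => (det_gram e b).symm
    simp only [h1]
    refine Continuous.matrix_det ?_
    unfold gram
    exact continuous_matrix fun i j => (continuous_apply i).inner (continuous_apply j)
  have hK : IsCompact K := by
    refine Metric.isCompact_of_isClosed_isBounded ?_ ?_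
    · exact (isClosed_eq hc2 continuous_const).inter (isClosed_le hc1 continuous_const)
    · refine (Metric.isBounded_iff_subset_closedBall 0).2
        ⟨Real.sqrt (Fintype.card ι * max 1 ((tot Q e / ε) ^ (Fintype.card ι - 1))), ?_⟩
      rintro b ⟨h1, h2⟩
      rw [mem_closedBall_zero_iff, pi_norm_le_iff_of_nonneg (Real.sqrt_nonneg _)]
      intro j
      exact Real.le_sqrt_of_sq_le (norm_bound h e hn hε hq b h1 h2 j)
  have hee : e.toBasis.det e ^ 2 = 1 := by
    have h1 : e.toBasis.det (⇑e) = 1 := by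
      rw [← e.coe_toBasis]
      exact e.toBasis.det_self
    rw [h1, one_pow]
  have hne : K.Nonempty := ⟨e, hee, le_rfl⟩
  obtain ⟨b, hb, hmin⟩ := hK.exists_isMinOn hne hc1.continuousOn
  refine ⟨b, hb.1, fun b' hb' => ?_⟩
  by_cases h1 : tot Q b' ≤ tot Q e
  · exact isMinOn_iff.1 hmin b' ⟨hb', h1⟩
  · exact hb.2.trans (not_le.1 h1).le

end Pool.Agent.X179.EP
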