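import Pool.Agent.W666.GB.Sec

/-!
# Einstein position: existence of the minimiser
-/

set_option autoImplicit false

namespace Pool.Agent.X179.EP

open Finset Pool.Agent.W666.GB

variable {V : Type*} [NormedAddCommGroup V] [InnerProductSpace ℝ V]
variable {ι : Type*} [Fintype ι] [DecidableEq ι]
variable {Q : V → V → V → V → ℝ}

/-- sum of the curvatures of a family -/
def tot (Q : V → V → V → V → ℝ) (b : ι → V) : ℝ := ∑ j, ∑ k, Q (b j) (b k) (b j) (b k)

omit [DecidableEq ι] in
theorem sum1 (h : AlgCurv Q) (c : ι → ℝ) (v : ι → V) (y z w : V) :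
    Q (∑ a, c a • v a) y z w = ∑ a, c a * Q (v a) y z w := by
  let L : V →ₗ[ℝ] ℝ :=
    { toFun := fun u => Q u y z w
      map_add' := fun u v => h.add u v y z w
      map_smul' := fun t u => h.smul t u y z w }
  have h1 : L (∑ a, c a • v a) = ∑ a, c a * L (v a) := by
    rw [map_sum]
    exact Finset.sum_congr rfl fun a _ => by rw [map_smul, smul_eq_mul]
  exact h1

omit [DecidableEq ι] in
theorem sum3 (h : AlgCurv Q) (c : ι → ℝ) (v : ι → V) (x y w : V) :
    Q x y (∑ a, c a • v a) w = ∑ a, c a * Q x y (v a) w := by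
  rw [← h.pair, sum1 h]
  exact Finset.sum_congr rfl fun a _ => by rw [← h.pair]

omit [DecidableEq ι] in
theorem sum2 (h : AlgCurv Q) (c : ι → ℝ) (v : ι → V) (x z w : V) :
    Q x (∑ a, c a • v a) z w = ∑ a, c a * Q x (v a) z w := by
  rw [h.anti, sum1 h, ← Finset.sum_neg_distrib]
  exact Finset.sum_congr rfl fun a _ => by rw [h.anti (v a) x z w]; ring

omit [DecidableEq ι] in
theorem sum4 (h : AlgCurv Q) (c : ι → ℝ) (v : ι → V) (x y z : V) :
    Q x y z (∑ a, c a • v a) = ∑ a, c a * Q x y z (v a) := by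
  rw [← h.pair, sum2 h]
  exact Finset.sum_congr rfl fun a _ => by rw [← h.pair]

theorem inv_sum (h : AlgCurv Q) (b : ι → V) {U : Matrix ι ι ℝ} (hU : U * U.transpose = 1)
    (y z : V) :
    ∑ j, Q (∑ a, U a j • b a) y (∑ a, U a j • b a) z = ∑ a, Q (b a) y (b a) z := by
  have h1 : ∀ j, Q (∑ a, U a j • b a) y (∑ a, U a j • b a) z =
      ∑ a, ∑ c, U a j * U c j * Q (b a) y (b c) z := by
    intro j
    rw [sum1 h (fun a => U a j)]
    refine Finset.sum_congr rfl fun a _ => ?_
    rw [sum3 h (fun a => U a j), Finset.mul_sum]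
    exact Finset.sum_congr rfl fun c _ => by ring
  simp only [h1]
  rw [Finset.sum_comm]
  refine Finset.sum_congr rfl fun a _ => ?_
  rw [Finset.sum_comm]
  have h2 : ∀ c, ∑ j, U a j * U c j * Q (b a) y (b c) z =
      (1 : Matrix ι ι ℝ) a c * Q (b a) y (b c) z := by
    intro c
    rw [← Finset.sum_mul, ← hU, Matrix.mul_apply]
    rfl
  simp only [h2, Matrix.one_apply]
  simp

theorem tot_inv (h : AlgCurv Q) (b : ι → V) {U : Matrix ι ι ℝ} (hU : U * U.transpose = 1) :
    tot Q (fun j => ∑ a, U a j • b a) = tot Q b := by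
  unfold tot
  have h1 : ∀ x y : V, Q x y x y = Q y x y x := by
    intro x y
    rw [h.anti x y y x, h.a34 x y y x]
    ring
  rw [Finset.sum_comm]
  simp only [inv_sum h b hU]
  rw [Finset.sum_comm]
  refine Finset.sum_congr rfl fun a _ => ?_
  have h2 : ∀ k, Q (b a) (∑ c, U c k • b c) (b a) (∑ c, U c k • b c) =
      Q (∑ c, U c k • b c) (b a) (∑ c, U c k • b c) (b a) := fun k => h1 _ _
  simp only [h2, inv_sum h b hU]
  exact Finset.sum_congr rfl fun c _ => h1 _ _

theorem q_swap (h : AlgCurv Q) (x y : V) : Q x y x y = Q y x y x := by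
  rw [h.anti x y y x, h.a34 x y y x]
  ring

theorem tot_update (h : AlgCurv Q) (b : ι → V) (p : ι) (v : V) :
    tot Q (Function.update b p v) = tot Q b +
      2 * ∑ k ∈ univ.erase p, (Q v (b k) v (b k) - Q (b p) (b k) (b p) (b k)) := by
  have key : ∀ c : ι → V, tot Q c = 2 * ∑ k ∈ univ.erase p, Q (c p) (c k) (c p) (c k) +
      ∑ j ∈ univ.erase p, ∑ k ∈ univ.erase p, Q (c j) (c k) (c j) (c k) := by
    intro c
    unfold tot
    rw [← Finset.add_sum_erase univ _ (mem_univ p)]
    have h1 : ∑ k, Q (c p) (c k) (c p) (c k) =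
        ∑ k ∈ univ.erase p, Q (c p) (c k) (c p) (c k) := by
      rw [← Finset.add_sum_erase univ _ (mem_univ p), h.self12, zero_add]
    have h2 : ∀ j ∈ univ.erase p, ∑ k, Q (c j) (c k) (c j) (c k) =
        Q (c p) (c j) (c p) (c j) + ∑ k ∈ univ.erase p, Q (c j) (c k) (c j) (c k) := by
      intro j _
      rw [← Finset.add_sum_erase univ _ (mem_univ p), q_swap h (c j) (c p)]
    rw [h1, Finset.sum_congr rfl h2, Finset.sum_add_distrib]
    ring
  rw [key, key b, Finset.sum_sub_distrib]
  have e1 : ∀ k ∈ univ.erase p, Function.update b p v k = b k := by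
    intro k hk
    exact Function.update_of_ne (Finset.ne_of_mem_erase hk) _ _
  have e2 : Function.update b p v p = v := Function.update_self _ _ _
  have s1 : ∑ k ∈ univ.erase p, Q (Function.update b p v p) (Function.update b p v k)
      (Function.update b p v p) (Function.update b p v k) =
      ∑ k ∈ univ.erase p, Q v (b k) v (b k) :=
    Finset.sum_congr rfl fun k hk => by rw [e1 k hk, e2]
  have s2 : ∑ j ∈ univ.erase p, ∑ k ∈ univ.erase p, Q (Function.update b p v j)
      (Function.update b p v k) (Function.update b p v j) (Function.update b p v k) =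
      ∑ j ∈ univ.erase p, ∑ k ∈ univ.erase p, Q (b j) (b k) (b j) (b k) :=
    Finset.sum_congr rfl fun j hj => Finset.sum_congr rfl fun k hk => by rw [e1 k hk, e1 j hj]
  rw [s1, s2]
  ring

theorem lin_zero {A B : ℝ} (h : ∀ t : ℝ, 0 ≤ t * A + t ^ 2 * B) : A = 0 := by
  by_contra hA
  have hA2 : 0 < A ^ 2 := by positivity
  have hB : 0 ≤ |B| := abs_nonneg B
  have h1 := h (-A / (|B| + 1))
  have h2 : -A / (|B| + 1) * A + (-A / (|B| + 1)) ^ 2 * B =
      (A ^ 2 / (|B| + 1) ^ 2) * (B - (|B| + 1)) := by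
    field_simp
    ring
  rw [h2] at h1
  have h3 : 0 < A ^ 2 / (|B| + 1) ^ 2 := by positivity
  have h4 : B - (|B| + 1) < 0 := by
    have := le_abs_self B
    linarith
  have := mul_neg_of_pos_of_neg h3 h4
  linarith

theorem crit_off (h : AlgCurv Q) (b : ι → V) {p q : ι} (_hpq : p ≠ q)
    (hmin : ∀ t : ℝ, tot Q b ≤ tot Q (Function.update b p (b p + t • b q))) :
    ∑ k, Q (b p) (b k) (b q) (b k) = 0 := by
  have h1 : ∑ k, Q (b p) (b k) (b q) (b k) =
      ∑ k ∈ univ.erase p, Q (b p) (b k) (b q) (b k) := by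
    rw [← Finset.add_sum_erase univ _ (mem_univ p), h.self12, zero_add]
  rw [h1]
  have h2 : ∀ t : ℝ, 0 ≤ t * (4 * ∑ k ∈ univ.erase p, Q (b p) (b k) (b q) (b k)) +
      t ^ 2 * (2 * ∑ k ∈ univ.erase p, Q (b q) (b k) (b q) (b k)) := by
    intro t
    have h3 := hmin t
    rw [tot_update h] at h3
    have h4 : ∀ k ∈ univ.erase p, Q (b p + t • b q) (b k) (b p + t • b q) (b k) -
        Q (b p) (b k) (b p) (b k) = 2 * t * Q (b p) (b k) (b q) (b k) +
          t ^ 2 * Q (b q) (b k) (b q) (b k) := by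
      intro k _
      rw [h.add, h.smul, h.add3, h.add3, h.smul3, h.smul3, h.pair (b p) (b k) (b q) (b k)]
      ring
    rw [Finset.sum_congr rfl h4, Finset.sum_add_distrib, ← Finset.mul_sum, ← Finset.mul_sum] at h3
    linarith
  have h5 := lin_zero h2
  linarith

theorem diag_eq {a b : ℝ} (h : ∀ u : ℝ, 0 < u → 0 ≤ (u - 1) * a + (u⁻¹ - 1) * b) : a = b := by
  have key : ∀ u : ℝ, 0 < u → 0 ≤ (u - 1) * (u * a - b) := by
    intro u hu
    have h1 := mul_nonneg hu.le (h u hu)
    have h2 : u * ((u - 1) * a + (u⁻¹ - 1) * b) = (u - 1) * (u * a - b) := by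
      field_simp
      ring
    rwa [h2] at h1
  by_contra hne
  rcases lt_or_gt_of_ne hne with hlt | hgt
  · -- a < b
    set δ : ℝ := min 1 ((b - a) / (2 * (|a| + 1))) with hδ
    have hδ0 : 0 < δ := lt_min one_pos (div_pos (by linarith) (by positivity))
    have h1 := key (1 + δ) (by linarith)
    have h2 : δ * |a| < b - a := by
      have : δ ≤ (b - a) / (2 * (|a| + 1)) := min_le_right _ _
      have h3 : δ * (2 * (|a| + 1)) ≤ b - a := by
        rwa [le_div_iff₀ (by positivity)] at this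
      nlinarith [abs_nonneg a]
    have h3 : (1 + δ) * a - b < 0 := by
      have := le_abs_self a
      nlinarith
    have : (1 + δ - 1) * ((1 + δ) * a - b) < 0 := mul_neg_of_pos_of_neg (by linarith) h3
    linarith
  · set δ : ℝ := min (1 / 2) ((a - b) / (2 * (|a| + 1))) with hδ
    have hδ0 : 0 < δ := lt_min (by norm_num) (div_pos (by linarith) (by positivity))
    have hδ1 : δ ≤ 1 / 2 := min_le_left _ _
    have h1 := key (1 - δ) (by linarith)
    have h2 : δ * |a| < a - b := by
      have : δ ≤ (a - b) / (2 * (|a| + 1)) := min_le_right _ _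
      have h3 : δ * (2 * (|a| + 1)) ≤ a - b := by
        rwa [le_div_iff₀ (by positivity)] at this
      nlinarith [abs_nonneg a]
    have h3 : 0 < (1 - δ) * a - b := by
      have := le_abs_self a
      nlinarith
    have : (1 - δ - 1) * ((1 - δ) * a - b) < 0 := mul_neg_of_neg_of_pos (by linarith) h3
    linarith

theorem crit_diag (h : AlgCurv Q) (b : ι → V) {p q : ι} (hpq : p ≠ q)
    (hmin : ∀ s : ℝ, 0 < s →
      tot Q b ≤ tot Q (Function.update (Function.update b p (s • b p)) q (s⁻¹ • b q))) :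
    ∑ k, Q (b p) (b k) (b p) (b k) = ∑ k, Q (b q) (b k) (b q) (b k) := by
  have rp : ∀ p : ι, ∀ c : ι → V, ∑ k, Q (c p) (c k) (c p) (c k) =
      ∑ k ∈ univ.erase p, Q (c p) (c k) (c p) (c k) := by
    intro p c
    rw [← Finset.add_sum_erase univ _ (mem_univ p), h.self12, zero_add]
  set K : ℝ := Q (b q) (b p) (b q) (b p) with hK
  have main : ∀ s : ℝ, 0 < s →
      tot Q (Function.update (Function.update b p (s • b p)) q (s⁻¹ • b q)) =
        tot Q b + 2 * ((s ^ 2 - 1) * (∑ k, Q (b p) (b k) (b p) (b k) - K) +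
          ((s ^ 2)⁻¹ - 1) * (∑ k, Q (b q) (b k) (b q) (b k) - K)) := by
    intro s hs
    have hs0 : s ≠ 0 := hs.ne'
    rw [tot_update h, tot_update h]
    have e1 : ∀ k ∈ univ.erase p, Q (s • b p) (b k) (s • b p) (b k) -
        Q (b p) (b k) (b p) (b k) = (s ^ 2 - 1) * Q (b p) (b k) (b p) (b k) := by
      intro k _
      rw [h.smul, h.smul3]
      ring
    rw [Finset.sum_congr rfl e1, ← Finset.mul_sum, ← rp p b]
    have hq : Function.update b p (s • b p) q = b q := Function.update_of_ne hpq.symm _ _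
    have hp : Function.update b p (s • b p) p = s • b p := Function.update_self _ _ _
    rw [hq]
    have e2 : ∀ k ∈ univ.erase q, Q (s⁻¹ • b q) (Function.update b p (s • b p) k) (s⁻¹ • b q)
        (Function.update b p (s • b p) k) -
        Q (b q) (Function.update b p (s • b p) k) (b q) (Function.update b p (s • b p) k) =
        ((s ^ 2)⁻¹ - 1) * Q (b q) (Function.update b p (s • b p) k) (b q)
          (Function.update b p (s • b p) k) := by
      intro k _
      rw [h.smul, h.smul3]
      field_simp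
    rw [Finset.sum_congr rfl e2, ← Finset.mul_sum]
    have hmem : p ∈ univ.erase q := Finset.mem_erase.2 ⟨hpq, mem_univ _⟩
    have e3 : ∑ k ∈ univ.erase q, Q (b q) (Function.update b p (s • b p) k) (b q)
          (Function.update b p (s • b p) k) =
        s ^ 2 * K + ∑ k ∈ (univ.erase q).erase p, Q (b q) (b k) (b q) (b k) := by
      rw [← Finset.add_sum_erase _ _ hmem, hp, h.smul2, h.smul4]
      congr 1
      · rw [hK]; ring
      · refine Finset.sum_congr rfl fun k hk => ?_
        rw [Function.update_of_ne (Finset.ne_of_mem_erase hk)]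
    have e4 : ∑ k, Q (b q) (b k) (b q) (b k) =
        K + ∑ k ∈ (univ.erase q).erase p, Q (b q) (b k) (b q) (b k) := by
      rw [rp q b, ← Finset.add_sum_erase _ _ hmem]
    rw [e3]
    rw [e4]
    field_simp
    ring
  have h1 : ∀ u : ℝ, 0 < u → 0 ≤ (u - 1) * (∑ k, Q (b p) (b k) (b p) (b k) - K) +
      (u⁻¹ - 1) * (∑ k, Q (b q) (b k) (b q) (b k) - K) := by
    intro u hu
    have h2 := hmin (Real.sqrt u) (Real.sqrt_pos.2 hu)
    rw [main _ (Real.sqrt_pos.2 hu), Real.sq_sqrt hu.le] at h2
    linarith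
  have h3 := diag_eq h1
  linarith

end Pool.Agent.X179.EP
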