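import Pool.Agent.X179.EP.Trans
import Pool.Agent.W714.HE.Main
import Pool.Agent.TH594.HE.Pt

/-!
# The sign relative to the Einstein metric
-/

set_option autoImplicit false

namespace Pool.Agent.X179.EP

open Finset Pool.Agent.W666.GB

variable {V : Type*} [NormedAddCommGroup V] [InnerProductSpace ℝ V]
variable {R : V → V → V → V → ℝ} {m : ℕ}

/-- index bijection -/
def i6 : Fin 6 ≃ Fin 3 × Bool where
  toFun := ![(0, false), (0, true), (1, false), (1, true), (2, false), (2, true)]
  invFun p := ⟨2 * p.1.val + (if p.2 then 1 else 0), by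
    have := p.1.isLt
    split_ifs <;> omega⟩
  left_inv := by decide
  right_inv := by decide

theorem six_eq (e : OrthonormalBasis (Fin 3 × Bool) ℝ V) (R : V → V → V → V → ℝ) :
    Hopf6.gbc (e.reindex i6.symm) R = gbc e R := by
  rw [Hopf6.gbc_eq, gbc]
  have hc : (1 : ℝ) / ((8 * Real.pi) ^ 3 * 6) = 1 / ((8 * Real.pi) ^ 3 * (Nat.factorial 3 : ℕ)) := by
    norm_num [Nat.factorial]
  rw [hc]
  congr 1
  unfold Hopf6.gb
  refine Fintype.sum_equiv i6.permCongr _ _ fun σ => ?_
  refine Fintype.sum_equiv i6.permCongr _ _ fun τ => ?_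
  rw [Equiv.Perm.sign_permCongr, Equiv.Perm.sign_permCongr]
  congr 1
  rw [Fin.prod_univ_three]
  simp only [Hopf6.tn, OrthonormalBasis.coe_reindex, Function.comp_apply, Equiv.symm_symm,
    Equiv.permCongr_apply]
  rfl

theorem curv6 (hR : AlgCurv R) : Hopf6.AlgCurv R where
  add := hR.add
  smul := hR.smul
  anti := hR.anti
  pair := hR.pair
  bianchi := hR.bianchi

theorem round6 (c : ℝ) : Hopf6.roundGB c = roundGB 3 c := by
  unfold Hopf6.roundGB roundGB
  have : ((2 * 3).factorial : ℝ) = 720 := by norm_num [Nat.factorial]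
  rw [this]
  have h3 : ((Nat.factorial 3 : ℕ) : ℝ) = 6 := by norm_num [Nat.factorial]
  rw [h3]
  have hπ := Real.pi_ne_zero
  field_simp
  ring

/-- Einstein tensors in dimension six with `-2 ≤ K ≤ 0` -/
theorem six_neg (e : OrthonormalBasis (Fin 3 × Bool) ℝ V) (hR : AlgCurv R)
    (hE : ∀ v w : V, ∑ i, R (e i) v (e i) w = -5 * inner ℝ v w) (hs : SecIn R (-2) 0) :
    gbc e R ≤ -(1 / 50 * roundGB 3 1) := by
  have h1 := Pool.Agent.W714.HE.ein_point_neg (e.reindex i6.symm) (curv6 hR) (c := 1) one_pos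
    (by
      intro v w
      have h2 : ∑ i, R ((e.reindex i6.symm) i) v ((e.reindex i6.symm) i) w =
          ∑ i, R (e i) v (e i) w := by
        refine Fintype.sum_equiv i6 _ _ fun i => ?_
        simp
      rw [h2, hE]
      ring)
    (by
      intro x y hx hy hxy
      have := hs x y hx hy hxy
      constructor
      · linarith [this.1]
      · exact this.2)
  rwa [six_eq, round6] at h1

/-- `h`-orthonormal bases exist -/
theorem exists_ortho (e : OrthonormalBasis (Fin m × Bool) ℝ V) {h : LinearMap.BilinForm ℝ V}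
    (hh : IsMetric h) : ∃ b : Fin m × Bool → V, Ortho h b := by
  obtain ⟨b, _, hb, _⟩ := exists_common e hh hh
  exact ⟨b, hb⟩

theorem gbc_car (hR : AlgCurv R) (e : OrthonormalBasis (Fin m × Bool) ℝ V)
    {b : Fin m × Bool → V} {h : LinearMap.BilinForm ℝ V} (hb : Ortho h b) :
    gbc e R = Matrix.det (fun i j => h (e i) (e j)) * gbc e (pull (car e b) R) := by
  rw [gbc_pull hR]
  have := det_car e hb
  calc gbc e R = (LinearMap.det (car e b) ^ 2 * Matrix.det fun i j => h (e i) (e j)) * gbc e R := by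
        rw [this, one_mul]
    _ = _ := by ring

theorem det_pos (e : OrthonormalBasis (Fin m × Bool) ℝ V)
    {b : Fin m × Bool → V} {h : LinearMap.BilinForm ℝ V} (hb : Ortho h b) :
    0 < Matrix.det (fun i j => h (e i) (e j)) := by
  have h1 := det_car e hb
  by_contra hcon
  push Not at hcon
  have : LinearMap.det (car e b) ^ 2 * Matrix.det (fun i j => h (e i) (e j)) ≤ 0 :=
    mul_nonpos_of_nonneg_of_nonpos (sq_nonneg _) hcon
  linarith

/-- the pulled back tensor is Einstein -/
theorem pull_ein (e : OrthonormalBasis (Fin m × Bool) ℝ V)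
    {b : Fin m × Bool → V} {h : LinearMap.BilinForm ℝ V} (hb : Ortho h b)
    (hE : ∀ v w : V, ∑ i, R (b i) v (b i) w =
      -((Fintype.card (Fin m × Bool) : ℝ) - 1) * h v w) (v w : V) :
    ∑ i, pull (car e b) R (e i) v (e i) w = (2 * m - 1) * (-1) * inner ℝ v w := by
  have h1 : ∑ i, pull (car e b) R (e i) v (e i) w =
      ∑ i, R (b i) (car e b v) (b i) (car e b w) := by
    refine Finset.sum_congr rfl fun i _ => ?_
    unfold pull
    rw [car_e]
  rw [h1, hE, car_h e hb]
  have hcard : (Fintype.card (Fin m × Bool) : ℝ) = 2 * m := by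
    rw [Fintype.card_prod, Fintype.card_fin, Fintype.card_bool]; push_cast; ring
  rw [hcard]
  ring

theorem six_h (e : OrthonormalBasis (Fin 3 × Bool) ℝ V) (hR : AlgCurv R)
    (hnp : ∀ x y, R x y x y ≤ 0) {h : LinearMap.BilinForm ℝ V}
    (hh : EinsteinMetric (Fin 3 × Bool) R h)
    (hs : ∀ x y, h x x = 1 → h y y = 1 → h x y = 0 → -2 ≤ R x y x y) :
    gbc e R ≤ -(1 / 50 * roundGB 3 1 * Matrix.det fun i j => h (e i) (e j)) ∧ gbc e R < 0 := by
  obtain ⟨b, hb⟩ := exists_ortho e hh.1
  have hd := det_pos e hb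
  have h1 : gbc e (pull (car e b) R) ≤ -(1 / 50 * roundGB 3 1) := by
    refine six_neg e (pull_curv hR _) ?_ ?_
    · intro v w
      rw [pull_ein e hb (hh.2 b hb)]
      norm_num
    · intro x y hx hy hxy
      refine ⟨hs _ _ ?_ ?_ ?_, hnp _ _⟩
      · rw [car_h e hb, real_inner_self_eq_norm_sq, hx, one_pow]
      · rw [car_h e hb, real_inner_self_eq_norm_sq, hy, one_pow]
      · rw [car_h e hb, hxy]
  have hr : 0 < roundGB 3 1 := roundGB_pos one_pos
  have h2 : gbc e R ≤ -(1 / 50 * roundGB 3 1 * Matrix.det fun i j => h (e i) (e j)) := by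
    rw [gbc_car hR e hb]
    have := mul_le_mul_of_nonneg_left h1 hd.le
    linarith
  refine ⟨h2, lt_of_le_of_lt h2 ?_⟩
  have : 0 < 1 / 50 * roundGB 3 1 * Matrix.det (fun i j => h (e i) (e j)) := by positivity
  linarith

/-- The curvature operator of `R` relative to `h` is at least `-c`. -/
def OpGe (R : V → V → V → V → ℝ) (h : LinearMap.BilinForm ℝ V) (c : ℝ) : Prop :=
  ∀ (N : ℕ) (x y : Fin N → V), 0 ≤ ∑ a, ∑ b, (R (x a) (y a) (x b) (y b) +
    c * (h (x a) (x b) * h (y a) (y b) - h (x a) (y b) * h (y a) (x b)))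

theorem op_h {V : Type} [NormedAddCommGroup V] [InnerProductSpace ℝ V]
    {R : V → V → V → V → ℝ} (e : OrthonormalBasis (Fin m × Bool) ℝ V) (hR : AlgCurv R)
    (hm : 3 ≤ m)
    {h : LinearMap.BilinForm ℝ V} (hh : EinsteinMetric (Fin m × Bool) R h) {c : ℝ} (hc : 0 < c)
    (hop : OpGe R h c) (hp : 0 < Pool.Agent.TH594.HE.pol m (1 - 1 / c)) :
    0 < (-1) ^ m * gbc e R := by
  obtain ⟨b, hb⟩ := exists_ortho e hh.1
  have hd := det_pos e hb
  have h1 : 0 < (-1) ^ m * gbc e (pull (car e b) R) := by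
    have hO : Pool.Agent.W669.HD.OpNonneg (Pool.Agent.W669.HD.addT (pull (car e b) R)
        fun x y z w => c * Pool.Agent.W669.HD.unitT x y z w) := by
      intro N x y
      have h2 := hop N (fun a => car e b (x a)) (fun a => car e b (y a))
      refine le_of_le_of_eq h2 ?_
      refine Finset.sum_congr rfl fun a _ => Finset.sum_congr rfl fun b' _ => ?_
      rw [car_h e hb, car_h e hb, car_h e hb, car_h e hb]
      rfl
    have hE : Pool.Agent.TH594.HE.Einstein e (pull (car e b) R) (-1) :=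
      fun v w => pull_ein e hb (hh.2 b hb) v w
    exact (Pool.Agent.TH594.HE.sign_neg e (pull_curv hR _) hc hm hO hE).2 hp
  rw [gbc_car hR e hb]
  have := mul_pos hd h1
  linarith [this, mul_left_comm ((-1 : ℝ) ^ m) (Matrix.det fun i j => h (e i) (e j))
    (gbc e (pull (car e b) R))]

/-- negative curvature: `R x y x y < 0` for linearly independent `x`, `y` -/
def NegSec (R : V → V → V → V → ℝ) : Prop :=
  ∀ x y : V, LinearIndependent ℝ ![x, y] → R x y x y < 0

theorem NegSec.pos (h : NegSec R) : PosSec fun x y z w => -R x y z w := by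
  intro x y hx hy hxy
  have h1 : LinearIndependent ℝ ![x, y] := by
    rw [LinearIndependent.pair_iff]
    intro s t hst
    have e1 : inner ℝ x (s • x + t • y) = s := by
      rw [inner_add_right, inner_smul_right, inner_smul_right, hxy, real_inner_self_eq_norm_sq, hx]
      ring
    have e2 : inner ℝ y (s • x + t • y) = t := by
      rw [inner_add_right, inner_smul_right, inner_smul_right, real_inner_comm, hxy,
        real_inner_self_eq_norm_sq, hy]
      ring
    rw [hst, inner_zero_right] at e1 e2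
    exact ⟨e1.symm, e2.symm⟩
  have := h x y h1
  linarith

theorem neg_alg (hR : AlgCurv R) : AlgCurv fun x y z w => -R x y z w where
  add x x' y z w := by rw [hR.add]; ring
  smul t x y z w := by rw [hR.smul]; ring
  anti x y z w := by rw [hR.anti]
  pair x y z w := by rw [hR.pair]
  bianchi x y z w := by
    have := hR.bianchi x y z w
    linarith

/-- every negatively curved tensor is a linear image of an Einstein one, with the same sign of
the integrand -/
theorem exists_pull (e : OrthonormalBasis (Fin m × Bool) ℝ V) (hR : AlgCurv R) (hm : 2 ≤ m)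
    (hneg : NegSec R) : ∃ A : V ≃ₗ[ℝ] V,
      (∀ v w : V, ∑ i, pull (A : V →ₗ[ℝ] V) R (e i) v (e i) w = -(2 * m - 1) * inner ℝ v w) ∧
      NegSec (pull (A : V →ₗ[ℝ] V) R) ∧
      gbc e (pull (A : V →ₗ[ℝ] V) R) = LinearMap.det (A : V →ₗ[ℝ] V) ^ 2 * gbc e R := by
  have hcard : Fintype.card (Fin m × Bool) = 2 * m := by
    rw [Fintype.card_prod, Fintype.card_fin, Fintype.card_bool]; ring
  obtain ⟨h, hh, -⟩ := exists_metric (neg_alg hR) e (by omega) hneg.pos
  obtain ⟨b, hb⟩ := exists_ortho e hh.1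
  have hdet : IsUnit (LinearMap.det (car e b)) := by
    have := det_car e hb
    refine isUnit_iff_ne_zero.2 fun h0 => ?_
    rw [h0] at this
    norm_num at this
  let A : V ≃ₗ[ℝ] V := LinearEquiv.ofIsUnitDet (v := e.toBasis) (v' := e.toBasis)
    (f := car e b) (by rwa [LinearMap.det_toMatrix])
  have hA : (A : V →ₗ[ℝ] V) = car e b := by
    ext x
    rfl
  refine ⟨A, ?_, ?_, gbc_pull hR e _⟩
  · intro v w
    rw [hA, pull_ein e hb (hh.2 b hb)]
    ring
  · intro x y hxy
    unfold pull
    refine hneg _ _ ?_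
    have h1 := hxy.map' (A : V →ₗ[ℝ] V) (LinearEquiv.ker A)
    have h2 : ((A : V →ₗ[ℝ] V) : V → V) ∘ ![x, y] = ![(A : V →ₗ[ℝ] V) x, (A : V →ₗ[ℝ] V) y] := by
      funext i
      fin_cases i <;> rfl
    rw [h2] at h1
    exact h1

end Pool.Agent.X179.EP
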