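import Pool.Agent.X179.EP.Ein
import Pool.Agent.W666.GB.Main
import Pool.Agent.H933R2.Hopf.Main

/-!
# The Gauss-Bonnet-Chern integrand under a change of the inner product
-/

set_option autoImplicit false

namespace Pool.Agent.X179.EP

open Finset Pool.Agent.W666.GB

variable {V : Type*} [NormedAddCommGroup V] [InnerProductSpace ℝ V]
variable {R : V → V → V → V → ℝ} {m : ℕ}

/-- the product of the factors as a multilinear map -/
noncomputable def mm (hR : AlgCurv R) (w : Fin m × Bool → V) :
    MultilinearMap ℝ (fun _ : Fin m × Bool => V) ℝ where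
  toFun v := ∏ b : Fin m, R (v (b, false)) (v (b, true)) (w (b, false)) (w (b, true))
  map_update_add' := by
    intro _ v i x y
    obtain ⟨b0, s⟩ := i
    have key : ∀ z : V, ∏ b : Fin m, R (Function.update v (b0, s) z (b, false))
        (Function.update v (b0, s) z (b, true)) (w (b, false)) (w (b, true)) =
        R (Function.update v (b0, s) z (b0, false))
          (Function.update v (b0, s) z (b0, true)) (w (b0, false)) (w (b0, true)) *
        ∏ b ∈ univ.erase b0, R (v (b, false)) (v (b, true)) (w (b, false)) (w (b, true)) := by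
      intro z
      rw [← Finset.mul_prod_erase univ _ (mem_univ b0)]
      congr 1
      refine Finset.prod_congr rfl fun b hb => ?_
      have hb' : b ≠ b0 := Finset.ne_of_mem_erase hb
      rw [Function.update_of_ne (fun h => hb' (congrArg Prod.fst h)),
        Function.update_of_ne (fun h => hb' (congrArg Prod.fst h))]
    rw [key, key, key, ← add_mul]
    congr 1
    cases s
    · rw [Function.update_self, Function.update_self, Function.update_self,
        Function.update_of_ne (by simp), Function.update_of_ne (by simp),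
        Function.update_of_ne (by simp), hR.add]
    · rw [Function.update_self, Function.update_self, Function.update_self,
        Function.update_of_ne (by simp), Function.update_of_ne (by simp),
        Function.update_of_ne (by simp), hR.add2]
  map_update_smul' := by
    intro _ v i c x
    obtain ⟨b0, s⟩ := i
    have key : ∀ z : V, ∏ b : Fin m, R (Function.update v (b0, s) z (b, false))
        (Function.update v (b0, s) z (b, true)) (w (b, false)) (w (b, true)) =
        R (Function.update v (b0, s) z (b0, false))
          (Function.update v (b0, s) z (b0, true)) (w (b0, false)) (w (b0, true)) *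
        ∏ b ∈ univ.erase b0, R (v (b, false)) (v (b, true)) (w (b, false)) (w (b, true)) := by
      intro z
      rw [← Finset.mul_prod_erase univ _ (mem_univ b0)]
      congr 1
      refine Finset.prod_congr rfl fun b hb => ?_
      have hb' : b ≠ b0 := Finset.ne_of_mem_erase hb
      rw [Function.update_of_ne (fun h => hb' (congrArg Prod.fst h)),
        Function.update_of_ne (fun h => hb' (congrArg Prod.fst h))]
    rw [key, key, smul_eq_mul, ← mul_assoc]
    congr 1
    cases s
    · rw [Function.update_self, Function.update_self,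
        Function.update_of_ne (by simp), Function.update_of_ne (by simp), hR.smul]
    · rw [Function.update_self, Function.update_self,
        Function.update_of_ne (by simp), Function.update_of_ne (by simp), hR.smul2]

/-- the double alternating sum -/
noncomputable def gbf (R : V → V → V → V → ℝ) (v w : Fin m × Bool → V) : ℝ :=
  ∑ σ : Equiv.Perm (Fin m × Bool), ∑ τ : Equiv.Perm (Fin m × Bool),
    ((Equiv.Perm.sign σ : ℤ) : ℝ) * ((Equiv.Perm.sign τ : ℤ) : ℝ) *
      ∏ b : Fin m, R (v (σ (b, false))) (v (σ (b, true))) (w (τ (b, false))) (w (τ (b, true)))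

theorem gbc_eq_gbf (e : OrthonormalBasis (Fin m × Bool) ℝ V) (R : V → V → V → V → ℝ) :
    gbc e R = 1 / ((8 * Real.pi) ^ m * m.factorial) * gbf R e e := rfl

theorem gbf_swap (hR : AlgCurv R) (v w : Fin m × Bool → V) : gbf R v w = gbf R w v := by
  unfold gbf
  rw [Finset.sum_comm]
  refine Finset.sum_congr rfl fun τ _ => Finset.sum_congr rfl fun σ _ => ?_
  rw [mul_comm ((Equiv.Perm.sign σ : ℤ) : ℝ)]
  congr 1
  exact Finset.prod_congr rfl fun b _ => (hR.pair _ _ _ _).symm

theorem gbf_alt (hR : AlgCurv R) (v w : Fin m × Bool → V) :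
    gbf R v w = ∑ τ : Equiv.Perm (Fin m × Bool), ((Equiv.Perm.sign τ : ℤ) : ℝ) *
      MultilinearMap.alternatization (mm hR fun i => w (τ i)) v := by
  unfold gbf
  rw [Finset.sum_comm]
  refine Finset.sum_congr rfl fun τ _ => ?_
  rw [MultilinearMap.alternatization_apply, Finset.mul_sum]
  refine Finset.sum_congr rfl fun σ _ => ?_
  have h1 : Equiv.Perm.sign σ • (mm hR fun i => w (τ i)).domDomCongr σ v =
      ((Equiv.Perm.sign σ : ℤ) : ℝ) *
        ∏ b : Fin m, R (v (σ (b, false))) (v (σ (b, true))) (w (τ (b, false)))
          (w (τ (b, true))) := by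
    rw [Units.smul_def, zsmul_eq_mul]
    rfl
  rw [h1]
  ring

theorem gbf_left (hR : AlgCurv R) (e : Module.Basis (Fin m × Bool) ℝ V)
    (v w : Fin m × Bool → V) : gbf R v w = e.det v * gbf R e w := by
  rw [gbf_alt hR, gbf_alt hR, Finset.mul_sum]
  refine Finset.sum_congr rfl fun τ _ => ?_
  have h1 := AlternatingMap.eq_smul_basis_det e
    (MultilinearMap.alternatization (mm hR fun i => w (τ i)))
  have h2 := congrArg (fun f => f v) h1
  simp only [AlternatingMap.smul_apply, smul_eq_mul] at h2
  rw [h2]
  ring

theorem gbf_trans (hR : AlgCurv R) (e : Module.Basis (Fin m × Bool) ℝ V)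
    (v : Fin m × Bool → V) : gbf R v v = e.det v ^ 2 * gbf R e e := by
  rw [gbf_left hR e v v, gbf_swap hR, gbf_left hR e v e]
  ring

/-- the pulled back tensor -/
def pull (A : V →ₗ[ℝ] V) (R : V → V → V → V → ℝ) (x y z w : V) : ℝ := R (A x) (A y) (A z) (A w)

theorem pull_curv (hR : AlgCurv R) (A : V →ₗ[ℝ] V) : AlgCurv (pull A R) where
  add x x' y z w := by simp only [pull, map_add, hR.add]
  smul t x y z w := by simp only [pull, map_smul, hR.smul]
  anti x y z w := hR.anti _ _ _ _
  pair x y z w := hR.pair _ _ _ _
  bianchi x y z w := hR.bianchi _ _ _ _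

theorem gbc_pull (hR : AlgCurv R) (e : OrthonormalBasis (Fin m × Bool) ℝ V) (A : V →ₗ[ℝ] V) :
    gbc e (pull A R) = LinearMap.det A ^ 2 * gbc e R := by
  rw [gbc_eq_gbf, gbc_eq_gbf]
  have h1 : gbf (pull A R) (⇑e) (⇑e) = gbf R (A ∘ e) (A ∘ e) := rfl
  rw [h1, gbf_trans hR e.toBasis]
  have h2 : e.toBasis.det (A ∘ e) = LinearMap.det A := by
    have := Module.Basis.det_comp e.toBasis A e
    rw [this]
    have h3 : e.toBasis.det (⇑e) = 1 := by
      rw [← e.coe_toBasis]
      exact e.toBasis.det_self
    rw [h3, mul_one]
  rw [h2]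
  have h3 : (⇑e.toBasis : Fin m × Bool → V) = ⇑e := e.coe_toBasis
  rw [h3]
  ring

/-- the linear map that carries the orthonormal basis `e` to `b` -/
noncomputable def car (e : OrthonormalBasis (Fin m × Bool) ℝ V) (b : Fin m × Bool → V) :
    V →ₗ[ℝ] V := e.toBasis.constr ℝ b

theorem car_e (e : OrthonormalBasis (Fin m × Bool) ℝ V) (b : Fin m × Bool → V)
    (i : Fin m × Bool) : car e b (e i) = b i := by
  unfold car
  have := e.toBasis.constr_basis ℝ b i
  rwa [e.coe_toBasis] at this

theorem car_h (e : OrthonormalBasis (Fin m × Bool) ℝ V) {b : Fin m × Bool → V}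
    {h : LinearMap.BilinForm ℝ V} (hb : Ortho h b) (x y : V) :
    h (car e b x) (car e b y) = inner ℝ x y := by
  let f : LinearMap.BilinForm ℝ V := h.compl₁₂ (car e b) (car e b)
  let g : LinearMap.BilinForm ℝ V := innerₗ V
  have hfg : f = g := by
    refine LinearMap.BilinForm.ext_basis e.toBasis fun i j => ?_
    simp only [f, g, e.coe_toBasis, LinearMap.compl₁₂_apply, car_e, hb i j]
    exact (orthonormal_iff_ite.1 e.orthonormal i j).symm
  have := congrArg (fun F : LinearMap.BilinForm ℝ V => F x y) hfg
  exact this

theorem det_car (e : OrthonormalBasis (Fin m × Bool) ℝ V) {b : Fin m × Bool → V}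
    {h : LinearMap.BilinForm ℝ V} (hb : Ortho h b) :
    LinearMap.det (car e b) ^ 2 * Matrix.det (fun i j => h (e i) (e j)) = 1 := by
  have h1 : gramH h b = (e.toBasis.toMatrix b).transpose * gramH h e * e.toBasis.toMatrix b := by
    rw [← gramH_mix]
    congr 1
    funext j
    have := e.toBasis.sum_toMatrix_smul_self b j
    rw [← this]
    simp
  have h2 : gramH h b = (1 : Matrix _ _ ℝ) := by
    ext j k
    rw [Matrix.one_apply]
    exact hb j k
  have h4 := congrArg Matrix.det h1
  rw [h2, Matrix.det_one, Matrix.det_mul, Matrix.det_mul, Matrix.det_transpose] at h4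
  have h5 : LinearMap.det (car e b) = (e.toBasis.toMatrix b).det := by
    have h6 := Module.Basis.det_comp e.toBasis (car e b) e
    have h3 : e.toBasis.det (⇑e) = 1 := by
      rw [← e.coe_toBasis]
      exact e.toBasis.det_self
    rw [h3, mul_one] at h6
    rw [← h6, ← Module.Basis.det_apply]
    congr 1
    funext i
    exact car_e e b i
  rw [h5]
  unfold gramH at h4
  rw [h4]
  ring

end Pool.Agent.X179.EP
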